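import Pool.Agent.U463.PG.Main
import Pool.Agent.Y190.SN.Lang

/-!
The degrees of the curves in the varieties of the vectors whose powers are the values of a
polynomial: bounds which depend on the degrees of the equations only.
-/

set_option autoImplicit false

set_option linter.unusedSectionVars false

open FF Pool.Agent.W603.LV Pool.Agent.W603.PV Pool.Agent.W602.GT Pool.Agent.Y190.BV
  Pool.Agent.Y190.GN Pool.Agent.TH145.MW Pool.Agent.Y190.AH Pool.Agent.Y190.QP
  Pool.Agent.Y190.AG
  Pool.Agent.U463.PV Pool.Agent.U463.PG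
open Pool.Agent.Y190 (SN.Simple)
open Polynomial

namespace Pool.Agent.U463.AH

section deg

variable {k : Type} [Field k] {N : ℕ}

theorem coeff_mul_deg {p q : Polynomial (MvPolynomial (Fin (N + 1)) k)} {A B : ℕ}
    (hp : ∀ d, (p.coeff d).totalDegree ≤ A) (hq : ∀ d, (q.coeff d).totalDegree ≤ B) (d : ℕ) :
    ((p * q).coeff d).totalDegree ≤ A + B := by
  rw [Polynomial.coeff_mul]
  refine (MvPolynomial.totalDegree_finsetSum _ _).trans ?_
  refine Finset.sup_le fun x _ => ?_
  exact (MvPolynomial.totalDegree_mul _ _).trans (add_le_add (hp _) (hq _))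

theorem coeff_pow_deg {p : Polynomial (MvPolynomial (Fin (N + 1)) k)}
    (hp : ∀ d, (p.coeff d).totalDegree ≤ 1) (e d : ℕ) :
    ((p ^ e).coeff d).totalDegree ≤ e := by
  induction e generalizing d with
  | zero =>
    rw [pow_zero, Polynomial.coeff_one]
    split_ifs
    · rw [MvPolynomial.totalDegree_one]
    · rw [MvPolynomial.totalDegree_zero]
  | succ e ih =>
    rw [pow_succ]
    exact coeff_mul_deg ih hp d

theorem coeff_prod_deg {ι : Type} (s : Finset ι)
    (p : ι → Polynomial (MvPolynomial (Fin (N + 1)) k)) (A : ι → ℕ)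
    (hp : ∀ i ∈ s, ∀ d, ((p i).coeff d).totalDegree ≤ A i) (d : ℕ) :
    ((∏ i ∈ s, p i).coeff d).totalDegree ≤ ∑ i ∈ s, A i := by
  classical
  induction s using Finset.induction_on generalizing d with
  | empty =>
    rw [Finset.prod_empty, Polynomial.coeff_one]
    split_ifs
    · rw [MvPolynomial.totalDegree_one]; exact Nat.zero_le _
    · rw [MvPolynomial.totalDegree_zero]; exact Nat.zero_le _
  | insert i s hi ih =>
    rw [Finset.prod_insert hi, Finset.sum_insert hi]
    exact coeff_mul_deg (hp i (Finset.mem_insert_self _ _))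
      (fun d => ih (fun j hj => hp j (Finset.mem_insert_of_mem hj)) d) d

/-- the linear factors -/
noncomputable def lf (a : Fin (N + 1) → k) (i : Fin (N + 1)) :
    Polynomial (MvPolynomial (Fin (N + 1)) k) :=
  (Polynomial.C (MvPolynomial.C (a i)) - Polynomial.X) * Polynomial.C (MvPolynomial.X i)

theorem lf_coeff (a : Fin (N + 1) → k) (i : Fin (N + 1)) (d : ℕ) :
    ((lf a i).coeff d).totalDegree ≤ 1 := by
  unfold lf
  have h1 : ∀ d, ((Polynomial.C (MvPolynomial.C (a i)) - Polynomial.X :
      Polynomial (MvPolynomial (Fin (N + 1)) k)).coeff d).totalDegree ≤ 0 := by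
    intro d
    rw [Polynomial.coeff_sub, Polynomial.coeff_C, Polynomial.coeff_X]
    refine (MvPolynomial.totalDegree_sub _ _).trans (max_le ?_ ?_)
    · split_ifs
      · rw [MvPolynomial.totalDegree_C]
      · rw [MvPolynomial.totalDegree_zero]
    · split_ifs
      · rw [MvPolynomial.totalDegree_one]
      · rw [MvPolynomial.totalDegree_zero]
  have h2 : ∀ d, ((Polynomial.C (MvPolynomial.X i) :
      Polynomial (MvPolynomial (Fin (N + 1)) k)).coeff d).totalDegree ≤ 1 := by
    intro d
    rw [Polynomial.coeff_C]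
    split_ifs
    · exact (MvPolynomial.totalDegree_X (R := k) i).le
    · rw [MvPolynomial.totalDegree_zero]; exact Nat.zero_le _
  exact (coeff_mul_deg h1 h2 d).trans (by omega)

theorem lf_natDegree (a : Fin (N + 1) → k) (i : Fin (N + 1)) : (lf a i).natDegree ≤ 1 := by
  unfold lf
  refine Polynomial.natDegree_mul_le.trans ?_
  rw [Polynomial.natDegree_C, add_zero]
  refine (Polynomial.natDegree_sub_le _ _).trans (max_le ?_ Polynomial.natDegree_X_le)
  rw [Polynomial.natDegree_C]
  exact Nat.zero_le _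

theorem gp_eq (a : Fin (N + 1) → k) (G : MvPolynomial (Fin (N + 1)) k) :
    gp a G = ∑ s ∈ G.support, Polynomial.C (MvPolynomial.C (G.coeff s)) * ∏ i, lf a i ^ s i := by
  unfold gp
  rw [MvPolynomial.aeval_def, MvPolynomial.eval₂_eq']
  rfl

theorem sum_le_deg {G : MvPolynomial (Fin (N + 1)) k} {d : ℕ} (hG : G.IsHomogeneous d)
    {s : Fin (N + 1) →₀ ℕ} (hs : s ∈ G.support) : ∑ i, s i = d := by
  have h2 := hG (MvPolynomial.mem_support_iff.1 hs)
  rw [Finsupp.weight_apply, Finsupp.sum_fintype _ _ (by simp)] at h2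
  simpa using h2

/-- **The height bound depends on the degree of the form.** -/
theorem bnd_le (a : Fin (N + 1) → k) {G : MvPolynomial (Fin (N + 1)) k} {d D : ℕ}
    (hG : G.IsHomogeneous d) (hd : d ≤ D) : bnd a G ≤ (D + 1) * (D * (N + 1)) := by
  have hc : ∀ j, ((gp a G).coeff j).totalDegree ≤ D := by
    intro j
    rw [gp_eq, Polynomial.finsetSum_coeff]
    refine (MvPolynomial.totalDegree_finsetSum _ _).trans ?_
    refine Finset.sup_le fun s hs => ?_
    have h1 : ∀ j, ((Polynomial.C (MvPolynomial.C (G.coeff s)) :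
        Polynomial (MvPolynomial (Fin (N + 1)) k)).coeff j).totalDegree ≤ 0 := by
      intro j
      rw [Polynomial.coeff_C]
      split_ifs
      · rw [MvPolynomial.totalDegree_C]
      · rw [MvPolynomial.totalDegree_zero]
    have h2 : ∀ j, ((∏ i, lf a i ^ s i).coeff j).totalDegree ≤ ∑ i, s i := fun j =>
      coeff_prod_deg Finset.univ (fun i => lf a i ^ s i) (fun i => s i)
        (fun i _ d => coeff_pow_deg (lf_coeff a i) (s i) d) j
    refine (coeff_mul_deg h1 h2 j).trans ?_
    rw [sum_le_deg hG hs, zero_add]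
    exact hd
  have hn : (gp a G).natDegree ≤ D := by
    rw [gp_eq]
    refine Polynomial.natDegree_sum_le_of_forall_le _ _ fun s hs => ?_
    refine Polynomial.natDegree_mul_le.trans ?_
    rw [Polynomial.natDegree_C, zero_add]
    refine (Polynomial.natDegree_prod_le _ _).trans ?_
    refine (Finset.sum_le_sum (g := fun i => s i) fun i _ => ?_).trans
      ((sum_le_deg hG hs).le.trans hd)
    refine Polynomial.natDegree_pow_le.trans ?_
    calc s i * (lf a i).natDegree ≤ s i * 1 := Nat.mul_le_mul_left _ (lf_natDegree a i)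
      _ = s i := mul_one _
  unfold bnd
  calc ∑ d ∈ Finset.range ((gp a G).natDegree + 1), ((gp a G).coeff d).totalDegree * (N + 1)
      ≤ ∑ d ∈ Finset.range ((gp a G).natDegree + 1), D * (N + 1) :=
        Finset.sum_le_sum fun j _ => Nat.mul_le_mul_right _ (hc j)
    _ = ((gp a G).natDegree + 1) * (D * (N + 1)) := by
        rw [Finset.sum_const, Finset.card_range, smul_eq_mul]
    _ ≤ (D + 1) * (D * (N + 1)) := Nat.mul_le_mul_right _ (by omega)

end deg

section curves

variable {k : Type} [Field k] [IsAlgClosed k] [CharZero k] {N n m : ℕ}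

/-- The constant for the subvarieties which are defined by forms of degree at most `D`. -/
def cst (N n D : ℕ) : ℕ := (N + 1) * (2 * ((D + 1) * (D * (N + 1)) * hco n) + hco n)

/-- **The structure of the curves, with the equation of the second factor.** -/
theorem dichoQ {L : Type} [Field L] [Algebra k L] [IsFF k L] (hm : 2 ≤ m) (hN : 4 * n < N + 1)
    {a : Fin (N + 1) → k} (ha : Function.Injective a) {y : Fin (N + 1) → L} (hy0 : y ≠ 0)
    {H : L[X]} (hd : H.natDegree ≤ n) (hs : Pool.Agent.Y190.SN.Simple m H)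
    (hy : ∀ j, y j ^ m = H.eval (algebraMap k L (a j))) :
    (∀ i j, hgt k (y i / y j) ≤ hco n * max (canDeg k L) 0) ∨
      ∃ (t : L) (z : Fin (N + 1) → L), (∀ i, y i = (algebraMap k L (a i) - t) * z i) ∧
        (∃ i j, i ≠ j ∧ z i ≠ 0 ∧ z j ≠ 0) ∧
        (∀ i j, hgt k (z i / z j) ≤ hco n * max (canDeg k L) 0) ∧
        ∃ Q : L[X], Q.natDegree + m ≤ n ∧ ∀ i, z i ^ m = Q.eval (algebraMap k L (a i)) := by
  classical
  have hchL : CharZero L := charZero_of_injective_algebraMap (algebraMap k L).injective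
  have hH : H ≠ 0 := by
    rintro rfl
    apply hy0
    funext j
    have h1 := hy j
    rw [eval_zero] at h1
    exact pow_eq_zero_iff (by omega) |>.1 h1
  rcases Pool.Agent.Y190.PH.simple_split hH hs with hfree | ⟨t, Q, hQ0, hHQ, hfQ⟩
  · exact Or.inl (rat_free hm hN ha hH hd hfree hy)
  have hdeg : H.natDegree = m + Q.natDegree := by
    rw [hHQ, natDegree_mul (pow_ne_zero _ (X_sub_C_ne_zero t)) hQ0, natDegree_pow,
      natDegree_X_sub_C, mul_one]
  have hmn : m ≤ n := by omega
  have hQd : Q.natDegree ≤ n - m := by omega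
  have hyQ : ∀ j, y j ^ m = (algebraMap k L (a j) - t) ^ m * Q.eval (algebraMap k L (a j)) := by
    intro j
    rw [hy j, hHQ, eval_mul, eval_pow, eval_sub, eval_X, eval_C]
  by_cases hnode : ∃ i0, t = algebraMap k L (a i0)
  · obtain ⟨i0, rfl⟩ := hnode
    exact Or.inl (Pool.Agent.Y190.PH.rat_nodeS hm hmn hN ha hQ0 hQd hfQ hyQ)
  push Not at hnode
  have hne : ∀ i, algebraMap k L (a i) - t ≠ 0 := fun i => sub_ne_zero.2 (Ne.symm (hnode i))
  have hzQ : ∀ i, (y i / (algebraMap k L (a i) - t)) ^ m = Q.eval (algebraMap k L (a i)) := by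
    intro i
    rw [div_pow, hyQ]
    have := pow_ne_zero m (hne i)
    field_simp
  refine Or.inr ⟨t, fun i => y i / (algebraMap k L (a i) - t), fun i => ?_, ?_, ?_, Q, by omega,
    hzQ⟩
  · have := hne i
    simp only
    field_simp
  · have hinj : Function.Injective fun i => algebraMap k L (a i) :=
      (algebraMap k L).injective.comp ha
    obtain ⟨i0, hi0⟩ := Function.ne_iff.1 hy0
    have hi0' : y i0 ≠ 0 := hi0
    refine ⟨i0, ?_⟩
    by_contra hcon
    push Not at hcon
    apply hQ0
    refine Polynomial.eq_zero_of_natDegree_lt_card_of_eval_eq_zero' _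
      ((Finset.univ.erase i0).image fun i => algebraMap k L (a i)) ?_ ?_
    · intro x hx
      obtain ⟨i, hi, rfl⟩ := Finset.mem_image.1 hx
      rw [← hzQ, hcon i (Finset.ne_of_mem_erase hi).symm (div_ne_zero hi0' (hne i0)),
        zero_pow (by omega)]
    · rw [Finset.card_image_of_injective _ hinj, Finset.card_erase_of_mem (Finset.mem_univ _),
        Finset.card_univ, Fintype.card_fin]
      omega
  · intro i j
    exact rat_free (y := fun i => y i / (algebraMap k L (a i) - t)) hm hN ha hQ0
      (hQd.trans (Nat.sub_le _ _)) hfQ hzQ i j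

theorem pht_of_hgt {L : Type} [Field L] [Algebra k L] [IsFF k L] {y : Fin (N + 1) → L}
    {l : Fin (N + 1)} (hl : y l ≠ 0) {B : ℕ}
    (h : ∀ i j, hgt k (y i / y j) ≤ (B : ℤ) * max (canDeg k L) 0) :
    pht k y ≤ ((N + 1) * B : ℕ) * max (canDeg k L) 0 := by
  refine (pht_le (k := k) y hl).trans ((Finset.sum_le_sum fun j _ => h j l).trans ?_)
  rw [Finset.sum_const, Finset.card_univ, Fintype.card_fin, nsmul_eq_mul]
  push_cast
  exact le_of_eq (by ring)

/-- **The degrees of the curves which are not on lines: a bound by the degrees.** -/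
theorem bound_deg (hm : 2 ≤ m)
    (hn : n ≤ N) (hN : 4 * n < N + 1) {a : Fin (N + 1) → k} (ha : Function.Injective a)
    {ι : Type} {F : ι → MvPolynomial (Fin (N + 1)) k} {D : ℕ}
    (hF : ∀ e, ∃ d ≤ D, (F e).IsHomogeneous d)
    (L : Type) [Field L] [Algebra k L] [IsFF k L] (y : Fin (N + 1) → L) (hy0 : y ≠ 0)
    (hyb : ∀ l : Rel a n, val y (buchi a n m l) = 0) (hy : ∀ e, val y (F e) = 0)
    (hsim : SN.Simple m (intp a hn (fun i => y i ^ m))) :
    pht k y ≤ cst N n D * max (canDeg k L) 0 ∨
      ∃ v : Fin (N + 1) → L, (∃ i j, y i * v j - y j * v i ≠ 0) ∧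
        ∀ (c c' : L) (e : ι), val (fun l => c * y l + c' * v l) (F e) = 0 := by
  classical
  have hF' : ∀ e, IsForm (F e) := fun e => by
    obtain ⟨d, -, hd⟩ := hF e
    exact ⟨d, hd⟩
  have hchL : CharZero L := charZero_of_injective_algebraMap (algebraMap k L).injective
  obtain ⟨l, hl⟩ := Function.ne_iff.1 hy0
  have hl' : y l ≠ 0 := hl
  have hM0 : (0 : ℤ) ≤ max (canDeg k L) 0 := le_max_right _ _
  obtain ⟨A1, hA1⟩ : ∃ A1 : ℕ, A1 = (D + 1) * (D * (N + 1)) := ⟨_, rfl⟩
  have hcst : cst N n D = (N + 1) * (2 * (A1 * hco n) + hco n) := by rw [hA1]; rfl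
  rw [hcst]
  rcases dichoQ (m := m) hm hN ha hy0 (intp_natDegree ha hn _) hsim
    (fun j => (intp_eval ha hn m hyb j).symm) with h | ⟨t, z, hyz, hz, hB, -⟩
  · refine Or.inl (pht_of_hgt hl' fun i j => (h i j).trans ?_)
    refine mul_le_mul_of_nonneg_right ?_ hM0
    exact_mod_cast Nat.le_add_left _ _
  · by_cases h0 : ∀ e, gz a z (F e) = 0
    · refine Or.inr ⟨z, ?_⟩
      obtain ⟨h2, h3⟩ := line_on hF' ha hz h0 t
      rw [show y = fun i => (algebraMap k L (a i) - t) * z i from funext hyz]
      exact ⟨h2, h3⟩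
    · push Not at h0
      obtain ⟨e, he⟩ := h0
      obtain ⟨i0, j0, -, hi0, -⟩ := hz
      have hz' : gz a (fun i => (z i0)⁻¹ * z i) (F e) ≠ 0 := fun h1 =>
        he (gz_smul (hF' e) h1 (inv_ne_zero hi0))
      have hval : val (fun i => (algebraMap k L (a i) - t) * ((z i0)⁻¹ * z i)) (F e) = 0 := by
        obtain ⟨d, hd⟩ := hF' e
        have h2 : (fun i => (algebraMap k L (a i) - t) * ((z i0)⁻¹ * z i)) =
            fun i => (z i0)⁻¹ * y i := by
          funext i
          rw [hyz i]
          ring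
        rw [h2, val_smul hd, hy e, mul_zero]
      have ht := root_bound a (F e) (B := hco n * max (canDeg k L) 0) (fun i => by
        rw [mul_comm, ← div_eq_mul_inv]
        exact hB i i0) hz' hval
      have hbA : bnd a (F e) ≤ A1 := by
        obtain ⟨d, hd, hhd⟩ := hF e
        rw [hA1]
        exact bnd_le a hhd hd
      have ht' : hgt k t ≤ (A1 * hco n : ℕ) * max (canDeg k L) 0 := by
        refine ht.trans ?_
        push_cast
        rw [mul_assoc]
        refine mul_le_mul_of_nonneg_right (by exact_mod_cast hbA) (by positivity)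
      left
      refine pht_of_hgt hl' fun i j => ?_
      have hsubt : ∀ i, hgt k (algebraMap k L (a i) - t) ≤ hgt k t := by
        intro i
        rw [sub_eq_add_neg]
        refine (hgt_add_le _ _).trans ?_
        rw [hgt_const, zero_add, hgt_neg]
      have h3 : y i / y j = ((algebraMap k L (a i) - t) * (algebraMap k L (a j) - t)⁻¹) *
          (z i / z j) := by
        rw [hyz i, hyz j, ← div_eq_mul_inv, mul_div_mul_comm]
      rw [h3]
      refine (hgt_mul_le _ _).trans ?_
      have h4 := hgt_mul_le (k := k) (algebraMap k L (a i) - t) (algebraMap k L (a j) - t)⁻¹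
      rw [hgt_inv] at h4
      have h5 := hsubt i
      have h6 := hsubt j
      have h7 := hB i j
      push_cast at ht' ⊢
      linarith

end curves

end Pool.Agent.U463.AH
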