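import Pool.Agent.U463.AH.Main
import Mathlib.RingTheory.Polynomial.Resultant.Basic

/-!
The discriminant: outside of it the varieties of the vectors whose powers are the values of a
polynomial are hyperbolic in all senses.
-/

set_option autoImplicit false

set_option linter.unusedSectionVars false

open FF Pool.Agent.W603.LV Pool.Agent.W603.PV Pool.Agent.W602.GT Pool.Agent.Y190.BV
  Pool.Agent.Y190.GN Pool.Agent.Y190.AH Pool.Agent.Y190.QP Pool.Agent.Y190.AG
  Pool.Agent.U463.PV Pool.Agent.U463.PG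
open Pool.Agent.Y190 (SN.Simple)

namespace Pool.Agent.U463.AH

section

variable {K : Type} [Field K] {N n m : ℕ}

/-- the interpolation polynomial of the powers of the variables -/
noncomputable def Hg (a : Fin (N + 1) → K) {n : ℕ} (hn : n ≤ N) (m : ℕ) :
    Polynomial (MvPolynomial (Fin (N + 1)) K) :=
  ∑ s : Fin (n + 1), Polynomial.C (MvPolynomial.X (Fin.castLE (by omega) s) ^ m) *
    (bas a hn s).map (MvPolynomial.C : K →+* MvPolynomial (Fin (N + 1)) K)

/-- the discriminant -/
noncomputable def disc (a : Fin (N + 1) → K) {n : ℕ} (hn : n ≤ N) (m : ℕ) :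
    MvPolynomial (Fin (N + 1)) K :=
  (Hg a hn m).resultant (Polynomial.derivative (Hg a hn m)) n (n - 1)

theorem Hg_map {L : Type} [Field L] [Algebra K L] (a : Fin (N + 1) → K) (hn : n ≤ N)
    (y : Fin (N + 1) → L) : (Hg a hn m).map (MvPolynomial.aeval y :
      MvPolynomial (Fin (N + 1)) K →ₐ[K] L).toRingHom = intp a hn (fun i => y i ^ m) := by
  unfold Hg intp
  rw [Polynomial.map_sum]
  refine Finset.sum_congr rfl fun s _ => ?_
  rw [Polynomial.map_mul, Polynomial.map_C, Polynomial.map_map]
  congr 1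
  · congr 1
    simp
  · congr 1
    ext c
    simp

theorem val_disc {L : Type} [Field L] [Algebra K L] (a : Fin (N + 1) → K) (hn : n ≤ N)
    (y : Fin (N + 1) → L) : val y (disc a hn m) =
      (intp a hn (fun i => y i ^ m)).resultant
        (Polynomial.derivative (intp a hn (fun i => y i ^ m))) n (n - 1) := by
  rw [← Hg_map, Polynomial.derivative_map, Polynomial.resultant_map_map]
  rfl

theorem Hg_coeff (a : Fin (N + 1) → K) (hn : n ≤ N) (i : ℕ) :
    ((Hg a hn m).coeff i).IsHomogeneous m := by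
  unfold Hg
  rw [Polynomial.finsetSum_coeff]
  refine MvPolynomial.IsHomogeneous.sum _ _ _ fun s _ => ?_
  rw [Polynomial.coeff_C_mul, Polynomial.coeff_map]
  have h1 : (MvPolynomial.X (Fin.castLE (by omega) s) ^ m :
      MvPolynomial (Fin (N + 1)) K).IsHomogeneous m := MvPolynomial.isHomogeneous_X_pow _ _
  have h2 := h1.mul (MvPolynomial.isHomogeneous_C (Fin (N + 1)) ((bas a hn s).coeff i))
  rwa [add_zero] at h2

theorem isForm_disc (a : Fin (N + 1) → K) (hn : n ≤ N) : IsForm (disc a hn m) := by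
  refine ⟨∑ _i : Fin (n + (n - 1)), m, ?_⟩
  unfold disc Polynomial.resultant
  rw [Matrix.det_apply]
  refine MvPolynomial.IsHomogeneous.sum _ _ _ fun σ _ => ?_
  have h1 : (∏ i, Polynomial.sylvester (Hg a hn m) (Polynomial.derivative (Hg a hn m)) n (n - 1)
      (σ i) i).IsHomogeneous (∑ _i : Fin (n + (n - 1)), m) := by
    refine MvPolynomial.IsHomogeneous.prod _ _ _ fun i _ => ?_
    unfold Polynomial.sylvester
    rw [Matrix.of_apply]
    refine Fin.addCases (fun j => ?_) (fun j => ?_) i
    · rw [Fin.addCases_left]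
      split_ifs
      · rw [Polynomial.coeff_derivative]
        have h2 : ∀ (P : MvPolynomial (Fin (N + 1)) K) (c : ℕ), P.IsHomogeneous m →
            (P * ((c : MvPolynomial (Fin (N + 1)) K) + 1)).IsHomogeneous m := by
          intro P c hP
          have h3 := hP.mul (MvPolynomial.isHomogeneous_C (Fin (N + 1)) ((c : K) + 1))
          rw [add_zero] at h3
          have h4 : (MvPolynomial.C ((c : K) + 1) : MvPolynomial (Fin (N + 1)) K) =
              (c : MvPolynomial (Fin (N + 1)) K) + 1 := by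
            rw [MvPolynomial.C_add, MvPolynomial.C_1, map_natCast]
          rwa [h4] at h3
        exact h2 _ _ (Hg_coeff a hn _)
      · exact MvPolynomial.isHomogeneous_zero _ _ _
    · rw [Fin.addCases_right]
      split_ifs
      · exact Hg_coeff a hn _
      · exact MvPolynomial.isHomogeneous_zero _ _ _
  rw [Units.smul_def]
  have h2 : (∏ i, Polynomial.sylvester (Hg a hn m) (Polynomial.derivative (Hg a hn m)) n (n - 1)
      (σ i) i) ∈ MvPolynomial.homogeneousSubmodule (Fin (N + 1)) K
        (∑ _i : Fin (n + (n - 1)), m) := h1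
  exact zsmul_mem h2 _

variable [IsAlgClosed K] [CharZero K]

/-- outside of the discriminant the polynomial has no multiple factors -/
theorem free_of_disc (hm : 2 ≤ m) (hn1 : 1 ≤ n) {L : Type} [Field L] {H : Polynomial L}
    (hH : H.natDegree ≤ n) (hres : H.resultant (Polynomial.derivative H) n (n - 1) ≠ 0)
    (p : Polynomial L) (hp : Irreducible p) : ¬ p ^ m ∣ H := by
  intro hdvd
  have hd' : (Polynomial.derivative H).natDegree ≤ n - 1 :=
    (Polynomial.natDegree_derivative_le H).trans (by omega)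
  obtain ⟨u, v, -, -, huv⟩ := Polynomial.exists_mul_add_mul_eq_C_resultant H
    (Polynomial.derivative H) hH hd' (Or.inl (by omega))
  have h1 : p ∣ H := (dvd_pow_self p (by omega)).trans hdvd
  have h2 : p ∣ Polynomial.derivative H := by
    obtain ⟨w, hw⟩ := (pow_dvd_pow p hm).trans hdvd
    rw [hw, Polynomial.derivative_mul, Polynomial.derivative_pow]
    refine dvd_add ?_ ?_
    · refine Dvd.dvd.mul_right ?_ _
      refine Dvd.dvd.mul_right ?_ _
      refine Dvd.dvd.mul_left ?_ _
      simp
    · exact (dvd_pow_self p two_ne_zero).mul_right _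
  have h3 : p ∣ Polynomial.C (H.resultant (Polynomial.derivative H) n (n - 1)) := by
    rw [← huv]
    exact dvd_add (h1.mul_right _) (h2.mul_right _)
  exact hp.not_isUnit (isUnit_of_dvd_unit h3 (Polynomial.isUnit_C.2 (isUnit_iff_ne_zero.2 hres)))

theorem disc_iff (hn1 : 1 ≤ n) {L : Type} [Field L] [CharZero L] {H : Polynomial L}
    (hH : H.natDegree ≤ n) : H.resultant (Polynomial.derivative H) n (n - 1) ≠ 0 ↔
      H.natDegree = n ∧ H.Separable := by
  have hd' : (Polynomial.derivative H).natDegree ≤ n - 1 :=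
    (Polynomial.natDegree_derivative_le H).trans (by omega)
  constructor
  · intro hres
    obtain ⟨u, v, -, -, huv⟩ := Polynomial.exists_mul_add_mul_eq_C_resultant H
      (Polynomial.derivative H) hH hd' (Or.inl (by omega))
    have hsep : H.Separable := by
      refine ⟨Polynomial.C (H.resultant (Polynomial.derivative H) n (n - 1))⁻¹ * u,
        Polynomial.C (H.resultant (Polynomial.derivative H) n (n - 1))⁻¹ * v, ?_⟩
      have h1 : Polynomial.C (H.resultant (Polynomial.derivative H) n (n - 1))⁻¹ * u * H +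
          Polynomial.C (H.resultant (Polynomial.derivative H) n (n - 1))⁻¹ * v *
            Polynomial.derivative H =
          Polynomial.C (H.resultant (Polynomial.derivative H) n (n - 1))⁻¹ *
            (H * u + Polynomial.derivative H * v) := by ring
      rw [h1, huv, ← Polynomial.C_mul, inv_mul_cancel₀ hres, Polynomial.C_1]
    refine ⟨?_, hsep⟩
    by_contra hne
    have hlt : H.natDegree < n := lt_of_le_of_ne hH hne
    apply hres
    by_cases h0 : H.natDegree = 0
    · obtain ⟨c, hc⟩ := Polynomial.natDegree_eq_zero.1 h0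
      rw [← hc, Polynomial.derivative_C, Polynomial.resultant_zero_right, zero_pow (by omega),
        zero_mul]
    · exact Polynomial.resultant_eq_zero_of_lt_lt _ _ _ _ hlt
        ((Polynomial.natDegree_derivative_le H).trans_lt (by omega))
  · rintro ⟨h1, h2⟩
    have h3 := Polynomial.resultant_ne_zero H (Polynomial.derivative H) h2
    have h4 : (Polynomial.derivative H).natDegree = n - 1 := by
      rw [Polynomial.natDegree_eq_of_degree_eq_some
        (Polynomial.degree_derivative (p := H) (by omega)), h1]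
    rwa [h4, h1] at h3

/-- lines are contained in the discriminant -/
theorem line_disc (hm : 2 ≤ m) (hn1 : 1 ≤ n) (hN4 : 4 * n < N + 1) {a : Fin (N + 1) → K}
    (ha : Function.Injective a) (hn : n ≤ N) {ι : Type} {F : ι → MvPolynomial (Fin (N + 1)) K}
    (hsub : Cone F ⊆ PowVal a n m) : LineOff F (fun _ : Unit => disc a hn m) := by
  by_contra hcon
  obtain ⟨u, v, e, huv, he⟩ := exists_base (fun _ => isForm_disc a hn) hcon
  have huv' := line_left huv one_ne_zero (-1)
  have hgm : GmLine ∅ F ((1 : K) • u + (-1 : K) • v) v := by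
    refine ⟨huv'.1, fun c c' hc _ => ⟨fun h0 => ?_, fun j hj => absurd hj
      (Set.notMem_empty j), huv'.2 c c'⟩⟩
    exact hc (LinearIndependent.pair_iff.1 huv'.1 c c' h0).1
  obtain ⟨y, hy, -, hyG⟩ := gm_subvar hgm
  have h0 : val y (disc a hn m) ≠ 0 := by
    intro h0
    have h1 := hyG (disc a hn m) h0 1 one_ne_zero
    have h2 : ((1 : K) • u + (-1 : K) • v) + (1 : K) • v = u := by
      rw [one_smul, one_smul, neg_one_smul, neg_add_cancel_right]
    rw [h2] at h1
    exact he h1
  have hyb : ∀ l : Rel a n, val y (buchi a n m l) = 0 :=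
    sub_ext (by rw [cone_buchi ha hn]; exact hsub) hy.ne hy.mem
  set H := intp a hn (fun i => y i ^ m) with hHd
  have hev : ∀ i, H.eval (algebraMap K (RatFunc K) (a i)) = y i ^ m := intp_eval ha hn m hyb
  obtain ⟨j0, hj0⟩ := Function.ne_iff.1 hy.ne
  have hj0' : y j0 ≠ 0 := hj0
  have hH0 : H ≠ 0 := by
    intro h1
    have h2 := hev j0
    rw [h1, Polynomial.eval_zero] at h2
    exact hj0' (eq_zero_of_pow_eq_zero h2.symm)
  rw [val_disc] at h0
  have hfree := free_of_disc hm hn1 (intp_natDegree ha hn _) h0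
  have hhgt := rat_free hm hN4 ha hH0 (intp_natDegree ha hn _) hfree (fun j => (hev j).symm)
  rw [Pool.Agent.W619.PQ.canDeg_rational (x := (RatFunc.X : RatFunc K)) RatFunc.adjoin_X] at hhgt
  have hbot : coords K y = ⊥ := by
    rw [eq_bot_iff]
    unfold coords
    rw [IntermediateField.adjoin_le_iff]
    rintro _ ⟨i, j, hj, rfl⟩
    by_cases hi : y i = 0
    · rw [hi, zero_div]
      exact zero_mem _
    · have h1 : hgt K (y i / y j) ≤ 0 := by
        refine (hhgt i j).trans ?_
        norm_num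
      obtain ⟨c, hc⟩ := Pool.Agent.W603.LV.const_of_hgt h1
      rw [hc]
      exact (⊥ : IntermediateField K (RatFunc K)).algebraMap_mem c
  have hX : (RatFunc.X : RatFunc K) ∈ coords K y := by
    rw [hy.gen]
    exact IntermediateField.mem_top
  rw [hbot, IntermediateField.mem_bot] at hX
  obtain ⟨c, hc⟩ := hX
  apply RatFunc.transcendental_X (K := K)
  rw [← hc]
  exact isAlgebraic_algebraMap c

/-- the discriminant does not vanish identically -/
theorem disc_ne (hm : 2 ≤ m) (hn1 : 1 ≤ n) {a : Fin (N + 1) → K} (ha : Function.Injective a)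
    (hn : n ≤ N) : ∃ x ∈ PowVal a n m, val x (disc a hn m) ≠ 0 := by
  classical
  have hinf : Infinite K := inferInstance
  obtain ⟨s, hs⟩ := Infinite.exists_subset_card_eq K n
  let H : Polynomial K := ∏ b ∈ s, (Polynomial.X - Polynomial.C b)
  have hdeg : H.natDegree = n := by
    simp only [H]
    rw [Polynomial.natDegree_finsetProd_X_sub_C_eq_card, hs]
  have hsep : H.Separable := by
    simp only [H]
    exact Polynomial.separable_prod_X_sub_C_iff'.2 fun x _ y _ h => h
  have hroot : ∀ i, ∃ z : K, z ^ m = H.eval (a i) := fun i =>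
    IsAlgClosed.exists_pow_nat_eq _ (by omega)
  choose x hx using hroot
  have hH0 : H ≠ 0 := hsep.ne_zero
  have hx0 : x ≠ 0 := by
    intro h0
    apply hH0
    refine Polynomial.eq_zero_of_natDegree_lt_card_of_eval_eq_zero _
      (f := fun i : Fin (N + 1) => a i) ha (fun i => ?_) ?_
    · rw [← hx, h0]
      exact zero_pow (by omega)
    · rw [Fintype.card_fin]
      omega
  refine ⟨x, ⟨hx0, H, hdeg.le, hx⟩, ?_⟩
  have h1 : intp a hn (fun i => x i ^ m) = H :=
    Pool.Agent.Y190.SN.intp_eq ha hn hdeg.le (fun i => hx i)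
  rw [val_disc, h1]
  exact (disc_iff hn1 hdeg.le).2 ⟨hdeg, hsep⟩

/-- points outside of the discriminant are simple -/
theorem simple_disc (hm : 2 ≤ m) (hn1 : 1 ≤ n) {a : Fin (N + 1) → K} (ha : Function.Injective a)
    (hn : n ≤ N) {ι : Type} {F : ι → MvPolynomial (Fin (N + 1)) K}
    (hsub : Cone F ⊆ PowVal a n m) : SimpleOff a n m F (fun _ : Unit => disc a hn m) := by
  rintro x hx ⟨_, hxd⟩
  obtain ⟨hx0, H, h1, h2⟩ := hsub hx
  have h3 : intp a hn (fun i => x i ^ m) = H := Pool.Agent.Y190.SN.intp_eq ha hn h1 h2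
  rw [val_disc, h3] at hxd
  have hfree := free_of_disc hm hn1 h1 hxd
  refine ⟨H, h1, h2, fun q hq => ?_⟩
  by_contra hdeg
  push Not at hdeg
  have hq0 : q ≠ 0 := by
    rintro rfl
    rw [Polynomial.natDegree_zero] at hdeg
    omega
  obtain ⟨p, w, hp, hw⟩ := Pool.Agent.Y190.SN.exists_irr hq0 (by omega)
  exact hfree p hp ((pow_dvd_pow_of_dvd ⟨w, hw⟩ m).trans hq)

theorem hco_eq (n : ℕ) : hco n = 4 * n ^ 3 * (n + 1) := by
  unfold hco
  ring

theorem four_lt {N n : ℕ} (hN : 4 * n + (n + 1) ^ 2 < 2 * (N + 1)) : 4 * n < N + 1 := by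
  have h1 : 4 * n ≤ (n + 1) ^ 2 := by
    zify
    nlinarith [sq_nonneg ((n : ℤ) - 1)]
  omega

/-- **Hyperbolicity modulo the discriminant.** -/
theorem pseudo (hm : 2 ≤ m) (hN : 4 * n + (n + 1) ^ 2 < 2 * (N + 1)) (hn1 : 1 ≤ n)
    {a : Fin (N + 1) → K} (ha : Function.Injective a) :
    ∃ Δ : MvPolynomial (Fin (N + 1)) K, IsForm Δ ∧
      (∀ x ∈ PowVal a n m, ∀ H : Polynomial K, H.natDegree ≤ n → (∀ i, x i ^ m = H.eval (a i)) →
        (val x Δ ≠ 0 ↔ H.natDegree = n ∧ H.Separable)) ∧
      (∃ x ∈ PowVal a n m, val x Δ ≠ 0) ∧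
      ∀ (ι : Type) (F : ι → MvPolynomial (Fin (N + 1)) K), (∀ e, IsForm (F e)) →
        Cone F ⊆ PowVal a n m →
        AlgHypBy ((N + 1) * (4 * n ^ 3 * (n + 1))) F (fun _ : Unit => Δ) ∧
        BoundedOff F (fun _ : Unit => Δ) ∧ GenusOneOff F (fun _ : Unit => Δ) ∧
        GmOff F (fun _ : Unit => Δ) ∧
        AllSubOff (fun L _ _ w => GeneralType K L w) F (fun _ : Unit => Δ) := by
  have hN4 : 4 * n < N + 1 := by
    have h1 : 4 * n ≤ (n + 1) ^ 2 := by
      zify
      nlinarith [sq_nonneg ((n : ℤ) - 1)]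
    omega
  have hn : n ≤ N := by omega
  refine ⟨disc a hn m, isForm_disc a hn, fun x _ H h1 h2 => ?_, disc_ne hm hn1 ha hn,
    fun ι F hF hsub => ?_⟩
  · rw [val_disc, Pool.Agent.Y190.SN.intp_eq ha hn h1 h2]
    exact disc_iff hn1 h1
  · have hG : ∀ _e : Unit, IsForm (disc a hn m) := fun _ => isForm_disc a hn
    have hline := line_disc hm hn1 hN4 ha hn hsub
    have ht := main hm hN ha hF hG (Or.inr ⟨hsub, simple_disc hm hn1 ha hn hsub⟩)
    have hX : Cone (buchi a n m) = PowVal a n m := cone_buchi ha hn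
    have hall := uniform_all hm hN4 ha (isForm_buchi a n m) hX (line_disc hm hn1 hN4 ha hn
      (F := buchi a n m) hX.subset)
    refine ⟨?_, (ht.out 1 4).2 hline, (ht.out 2 4).2 hline, (ht.out 3 4).2 hline,
      (ht.out 5 4).2 hline⟩
    rw [← hco_eq]
    rintro L _ _ _ f ⟨hf0, hfF, e, he⟩
    exact hall L f ⟨hf0, sub_ext (by rw [hX]; exact hsub) hf0 hfF, e, he⟩

end

end Pool.Agent.U463.AH
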