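import Pool.Agent.U463.AH.Bnd
import Pool.Agent.Y190.QP.SpA

/-!
The algebraic notions of hyperbolicity, modulo a closed set, for the varieties of the vectors whose
powers are the values of a polynomial of any degree.
-/

set_option autoImplicit false

set_option linter.unusedSectionVars false

open FF Pool.Agent.W603.LV Pool.Agent.W603.PV Pool.Agent.W602.GT Pool.Agent.Y190.BV
  Pool.Agent.Y190.GN Pool.Agent.Y190.AH Pool.Agent.Y190.QP Pool.Agent.Y190.AG
  Pool.Agent.U463.PV Pool.Agent.U463.PG
open Pool.Agent.Y190 (SN.Simple)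

namespace Pool.Agent.U463.AH

section defs

variable {K : Type} [Field K] {N : ℕ} {ι κ : Type}

/-- All closed subvarieties of positive dimension `w` of `V = {F = 0}`, with function field `L`,
that are not contained in `Z = {G = 0}`, have the property `P`. -/
def AllSubOff (P : (L : Type) → [Field L] → [Algebra K L] → ℕ → Prop)
    (F : ι → MvPolynomial (Fin (N + 1)) K) (G : κ → MvPolynomial (Fin (N + 1)) K) : Prop :=
  ∀ (L : Type) [Field L] [Algebra K L] (w : ℕ) (y : Fin (N + 1) → L), 1 ≤ w →
    SubVar F L w y → (∃ e, val y (G e) ≠ 0) → P L w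

/-- `V` is algebraically hyperbolic modulo `Z`, with the constant `B`: a map of degree `d` from a
curve of genus `g` to `V`, whose image is not in `Z`, satisfies `d ≤ B * max (2 * g - 2) 0`. -/
def AlgHypBy (B : ℕ) (F : ι → MvPolynomial (Fin (N + 1)) K)
    (G : κ → MvPolynomial (Fin (N + 1)) K) : Prop :=
  ∀ (L : Type) [Field L] [Algebra K L] [IsFF K L] (f : Fin (N + 1) → L),
    MapOff F G f → pht K f ≤ B * max (canDeg K L) 0

end defs

section

variable {K : Type} [Field K] {N n m : ℕ} {ι κ : Type} [IsAlgClosed K] [CharZero K]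

theorem ruled_ratFunc : Ruled K (RatFunc K) := by
  refine ⟨⊥, RatFunc.X, ?_, adjoin_mono_top' RatFunc.adjoin_X⟩
  intro h
  have h1 : Algebra.IsAlgebraic K (⊥ : IntermediateField K (RatFunc K)) := inferInstance
  exact RatFunc.transcendental_X (K := K) (h.restrictScalars K)

/-- a line which is not in `Z` is a ruled subvariety -/
theorem line_of_ruled {F : ι → MvPolynomial (Fin (N + 1)) K}
    {G : κ → MvPolynomial (Fin (N + 1)) K} (hG : ∀ e, IsForm (G e))
    (h : AllSubOff (fun L _ _ _ => ¬ Ruled K L) F G) : LineOff F G := by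
  by_contra hcon
  obtain ⟨u, v, e, huv, he⟩ := exists_base hG hcon
  have huv' := line_left huv one_ne_zero (-1)
  have hgm : GmLine ∅ F ((1 : K) • u + (-1 : K) • v) v := by
    refine ⟨huv'.1, fun c c' hc _ => ⟨fun h0 => ?_, fun j hj => absurd hj
      (Set.notMem_empty j), huv'.2 c c'⟩⟩
    exact hc (LinearIndependent.pair_iff.1 huv'.1 c c' h0).1
  obtain ⟨y, hy, -, hyG⟩ := gm_subvar hgm
  refine h (RatFunc K) 1 y le_rfl ⟨hy.ne, hy.mem, hy.gen, hy.dim⟩ ⟨e, fun h0 => he ?_⟩
    ruled_ratFunc
  have h1 := hyG (G e) h0 1 one_ne_zero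
  have h2 : ((1 : K) • u + (-1 : K) • v) + (1 : K) • v = u := by
    rw [one_smul, one_smul, neg_one_smul, neg_add_cancel_right]
  rw [h2] at h1
  exact h1

/-- subvarieties which are not in `Z` are of general type -/
theorem gt_of_line (hm : 2 ≤ m) (hN : 4 * n + (n + 1) ^ 2 < 2 * (N + 1))
    {a : Fin (N + 1) → K} (ha : Function.Injective a) {F : ι → MvPolynomial (Fin (N + 1)) K}
    (hF : ∀ e, IsForm (F e)) {G : κ → MvPolynomial (Fin (N + 1)) K}
    (hV : Cone F = PowVal a n m ∨ Cone F ⊆ PowVal a n m ∧ SimpleOff a n m F G)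
    (h : LineOff F G) : AllSubOff (fun L _ _ w => GeneralType K L w) F G := by
  have hn : n ≤ N := by nlinarith
  obtain ⟨hsub, hS⟩ := data_off (by omega) hn ha hF hV h
  have hsub' : Cone F ⊆ Cone (buchi a n m) := by rw [cone_buchi ha hn]; exact hsub
  intro L _ _ w y hw hy ⟨e, he⟩
  by_contra hgt
  have hchK : CharZero L := charZero_of_injective_algebraMap (algebraMap K L).injective
  have hinfK : Infinite L := inferInstance
  have hy' : SubVar (buchi a n m) L w y := ⟨hy.ne, sub_ext hsub' hy.ne hy.mem, hy.gen, hy.dim⟩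
  have hsim := simple_off (by omega) hn ha hsub hS hy.ne hy.mem he
  obtain ⟨hmn, t, z, hyz, hz, ⟨i, j, hij, hi, hj⟩, htr, htop⟩ :=
    Pool.Agent.Y190.SN.structure_thm hm hn hN ha hy' hsim hgt
  exact he (mem_closure y z ⟨i, j, wedge_ne ha hyz hij hi hj⟩
    (fun c c' e => line_vanish hyz hi htr (hF e) (hy.mem e) c c')
    (fun p q hpq c c' => h p q hpq c c' e))

/-- **The bound by the degrees of the equations.** -/
theorem uniform (hm : 2 ≤ m) (hN : 4 * n < N + 1) {a : Fin (N + 1) → K}
    (ha : Function.Injective a) {F : ι → MvPolynomial (Fin (N + 1)) K}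
    {G : κ → MvPolynomial (Fin (N + 1)) K}
    (hV : Cone F = PowVal a n m ∨ Cone F ⊆ PowVal a n m ∧ SimpleOff a n m F G)
    (h : LineOff F G) {D : ℕ} (hF : ∀ e, ∃ d ≤ D, (F e).IsHomogeneous d) :
    AlgHypBy (cst N n D) F G := by
  have hn : n ≤ N := by omega
  have hF' : ∀ e, IsForm (F e) := fun e => by
    obtain ⟨d, -, hd⟩ := hF e
    exact ⟨d, hd⟩
  obtain ⟨hsub, hS⟩ := data_off (by omega) hn ha hF' hV h
  rintro L _ _ _ f ⟨hf0, hfF, e, he⟩
  have hchL : CharZero L := charZero_of_injective_algebraMap (algebraMap K L).injective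
  rcases bound_deg hm hn hN ha hF L f hf0
    (sub_ext (by rw [cone_buchi ha hn]; exact hsub) hf0 hfF) hfF
    (simple_off (by omega) hn ha hsub hS hf0 hfF he) with h1 | ⟨v, h1, h2⟩
  · exact h1
  · exact absurd (mem_closure f v h1 h2 fun p q hpq c c' => h p q hpq c c' e) he

/-- the equations of the variety vanish at the points over extensions -/
theorem ext_of_buchi {L : Type} [Field L] [Algebra K L] {a : Fin (N + 1) → K}
    {F : ι → MvPolynomial (Fin (N + 1)) K} (hsub : Cone (buchi a n m) ⊆ Cone F)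
    {y : Fin (N + 1) → L} (hy0 : y ≠ 0) (hy : ∀ l : Rel a n, val y (buchi a n m l) = 0)
    (e : ι) : val y (F e) = 0 := by
  by_contra hne
  obtain ⟨i, hi⟩ := Function.ne_iff.1 hy0
  have hH : MvPolynomial.aeval y (F e * MvPolynomial.X i) ≠ 0 := by
    rw [map_mul, MvPolynomial.aeval_X]
    exact mul_ne_zero hne hi
  obtain ⟨x, hx, hx0⟩ := specialise y _ hH
  rw [map_mul, MvPolynomial.aeval_X] at hx
  have h1 := left_ne_zero_of_mul hx
  have h2 := right_ne_zero_of_mul hx
  have h3 : x ∈ Cone (buchi a n m) := ⟨fun h => h2 (congrFun h i), fun l => hx0 _ (hy l)⟩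
  exact h1 ((hsub h3).2 e)

/-- **The bound for the variety of all vectors of values.** -/
theorem uniform_all (hm : 2 ≤ m) (hN : 4 * n < N + 1) {a : Fin (N + 1) → K}
    (ha : Function.Injective a) {F : ι → MvPolynomial (Fin (N + 1)) K} (hF : ∀ e, IsForm (F e))
    {G : κ → MvPolynomial (Fin (N + 1)) K} (hV : Cone F = PowVal a n m) (h : LineOff F G) :
    AlgHypBy ((N + 1) * hco n) F G := by
  have hn : n ≤ N := by omega
  obtain ⟨hsub, hS⟩ := data_off (by omega) hn ha hF (Or.inl hV) h
  rintro L _ _ _ f ⟨hf0, hfF, e, he⟩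
  have hchL : CharZero L := charZero_of_injective_algebraMap (algebraMap K L).injective
  have hfb := sub_ext (m := m) (by rw [cone_buchi ha hn]; exact hsub) hf0 hfF
  have hsim := simple_off (by omega) hn ha hsub hS hf0 hfF he
  obtain ⟨l, hl⟩ := Function.ne_iff.1 hf0
  rcases dichoQ (m := m) hm hN ha hf0 (intp_natDegree ha hn _) hsim
    (fun j => (intp_eval ha hn m hfb j).symm) with h1 | ⟨t, z, hyz, ⟨i, j, hij, hi, hj⟩, -, Q,
      hQ, hzQ⟩
  · exact pht_of_hgt hl h1
  · exfalso
    apply he
    refine mem_closure f z ⟨i, j, wedge_ne ha hyz hij hi hj⟩ (fun c c' e => ?_)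
      (fun p q hpq c c' => h p q hpq c c' e)
    have hpt : ∀ i, c * f i + c' * z i =
        (c * (algebraMap K L (a i) - t) + c') * z i := by
      intro i
      rw [hyz i]
      ring
    by_cases h0 : (fun l => c * f l + c' * z l) = 0
    · have h1 : c * f i + c' * z i = 0 := congrFun h0 i
      have h2 : c * f j + c' * z j = 0 := congrFun h0 j
      rw [hpt] at h1 h2
      have h3 := (mul_eq_zero.1 h1).resolve_right hi
      have h4 := (mul_eq_zero.1 h2).resolve_right hj
      have hne : algebraMap K L (a i) - algebraMap K L (a j) ≠ 0 :=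
        sub_ne_zero.2 fun h5 => hij (ha ((algebraMap K L).injective h5))
      have hc : c = 0 := by
        have h5 : c * (algebraMap K L (a i) - algebraMap K L (a j)) = 0 := by
          linear_combination h3 - h4
        exact (mul_eq_zero.1 h5).resolve_right hne
      have hc' : c' = 0 := by
        rw [hc, zero_mul, zero_add] at h3
        exact h3
      obtain ⟨d, hd⟩ := hF e
      have h5 : (fun l => c * f l + c' * z l) = fun l => (0 : L) * f l := by
        funext l
        rw [hc, hc', zero_mul, zero_mul, add_zero]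
      rw [h5, val_smul hd, hfF e, mul_zero]
    · refine ext_of_buchi (a := a) (n := n) (m := m) (by rw [cone_buchi ha hn, hV]) h0 ?_ e
      intro l
      refine mem_of_poly a n m _ ((Polynomial.C c * (Polynomial.X - Polynomial.C t) +
        Polynomial.C c') ^ m * Q) ?_ ?_ l
      · refine Polynomial.natDegree_mul_le.trans ?_
        have h6 : ((Polynomial.C c * (Polynomial.X - Polynomial.C t) +
            Polynomial.C c') ^ m).natDegree ≤ m := by
          refine Polynomial.natDegree_pow_le.trans ?_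
          have h7 : (Polynomial.C c * (Polynomial.X - Polynomial.C t) +
              Polynomial.C c').natDegree ≤ 1 := by
            compute_degree
          calc m * _ ≤ m * 1 := Nat.mul_le_mul_left _ h7
            _ = m := mul_one _
        omega
      · intro i
        rw [hpt i, mul_pow, hzQ, Polynomial.eval_mul, Polynomial.eval_pow, Polynomial.eval_add,
          Polynomial.eval_mul, Polynomial.eval_C, Polynomial.eval_sub, Polynomial.eval_X,
          Polynomial.eval_C, Polynomial.eval_C]

/-- **The algebraic notions of hyperbolicity.** -/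
theorem main (hm : 2 ≤ m) (hN : 4 * n + (n + 1) ^ 2 < 2 * (N + 1)) {a : Fin (N + 1) → K}
    (ha : Function.Injective a) {F : ι → MvPolynomial (Fin (N + 1)) K} (hF : ∀ e, IsForm (F e))
    {G : κ → MvPolynomial (Fin (N + 1)) K} (hG : ∀ e, IsForm (G e))
    (hV : Cone F = PowVal a n m ∨ Cone F ⊆ PowVal a n m ∧ SimpleOff a n m F G) :
    [AlgHypOff F G, BoundedOff F G, GenusOneOff F G, GmOff F G, LineOff F G,
      AllSubOff (fun L _ _ w => GeneralType K L w) F G,
      AllSubOff (fun L _ _ w => KodGe K L w (fun _ => False) 0) F G,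
      AllSubOff (fun L _ _ w => Psef K L w (fun _ => False)) F G,
      AllSubOff (fun L _ _ _ => ¬ Ruled K L) F G].TFAE := by
  have hN' : 4 * n < N + 1 := by
    have h1 : 4 * n ≤ (n + 1) ^ 2 := by
      zify
      nlinarith [sq_nonneg ((n : ℤ) - 1)]
    omega
  have hc := curves_tfaeS hm hN' ha hF hG hV
  tfae_have 1 ↔ 5 := hc.out 0 4
  tfae_have 2 ↔ 5 := hc.out 1 4
  tfae_have 3 ↔ 5 := hc.out 2 4
  tfae_have 4 ↔ 5 := hc.out 3 4
  tfae_have 5 → 6 := gt_of_line hm hN ha hF hV
  tfae_have 6 → 7 := fun h L _ _ w y hw hy he => kod_of_general (h L w y hw hy he)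
  tfae_have 7 → 8 := fun h L _ _ w y hw hy he => psef_of_kodGe (h L w y hw hy he)
  tfae_have 8 → 9 := by
    rintro h L _ _ w y hw hy he ⟨C, t, ht, htop⟩
    exact not_psef_of hy.dim C ht htop (h L w y hw hy he)
  tfae_have 9 → 5 := line_of_ruled hG
  tfae_finish

end

end Pool.Agent.U463.AH
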